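import Mathlib
import Pool.Agent.H54.WZ2

namespace Pool.Agent.Results.MP_ccf7f2_nt.Int

open Nat Finset Pool.Agent.H54.SuperCat

/-- the sum `T_n` -/
def T (n : ℕ) : ℚ :=
  ∑ j ∈ range n, (-27) ^ (n - 1 - j) * (15 * j + 4) * ((2 * j).choose j : ℚ) ^ 2 * ((3 * j).choose j : ℚ)

/-- the normalised sum `a_n` -/
def a (n : ℕ) : ℚ := T n / (2 * n * (2 * n + 1) * ((2 * n).choose n : ℚ))

def T1 (k d : ℕ) : ℚ := h d * h (k + d) * (3 * (k + d))! * (-16 / 27) ^ (k + d) * (-1 / 4) ^ k /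
  ((k + 2 * d)! * d ! * (k + d)! * (2 * k + d)!)
def F1 (k d : ℕ) : ℚ := T1 k d * ((30 * (k + d) ^ 2 - 15 * (k + d) * k + 23 * (k + d) + 3 * k ^ 2 - 5 * k + 4) /
  (k + 2 * d + 1))
def G1 (j d : ℕ) : ℚ := T1 (j + 1) d * (9 * (2 * j + 2 + d))

def T2 (k d : ℕ) : ℚ := h d * h (2 * k + d) * (3 * (k + d))! * k ! * (-16 / 27) ^ (k + d) * (-27) ^ k /
  ((k + 2 * d)! * d ! * (k + d)! ^ 2 * (3 * k)!)
def F2 (k d : ℕ) : ℚ := T2 k d * ((30 * (k + d) ^ 2 - 27 * (k + d) * k + 23 * (k + d) - 3 * k ^ 2 - 7 * k + 4) /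
  (k + 2 * d + 1))
def G2 (j d : ℕ) : ℚ := T2 (j + 1) d * ((j + 1 + d) * (6 * d + 1) / (4 * j + 2 * d + 3))

lemma cl1 (j d : ℕ) : F1 j (d + 1) - F1 (j + 1) d = G1 j (d + 1) - G1 j d := by
  simp only [F1, G1, T1, show j + (d + 1) = j + d + 1 by ring, show j + 1 + d = j + d + 1 by ring,
    show j + 1 + (d + 1) = j + d + 1 + 1 by ring, show j + 2 * (d + 1) = j + 2 * d + 1 + 1 by ring,
    show j + 1 + 2 * d = j + 2 * d + 1 by ring, show j + 1 + 2 * (d + 1) = j + 2 * d + 1 + 1 + 1 by ring,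
    show 2 * j + (d + 1) = 2 * j + d + 1 by ring, show 2 * (j + 1) + d = 2 * j + d + 1 + 1 by ring,
    show 2 * (j + 1) + (d + 1) = 2 * j + d + 1 + 1 + 1 by ring,
    show 3 * (j + d + 1 + 1) = 3 * (j + d + 1) + 1 + 1 + 1 by ring, factorial_succ, h.eq_2, pow_succ]
  push_cast
  field_simp
  ring

lemma bd1 (n : ℕ) : F1 n 0 = G1 n 0 := by
  simp only [F1, G1, T1, add_zero, mul_zero, show 2 * (n + 1) = 2 * n + 1 + 1 by ring,
    show 3 * (n + 1) = 3 * n + 1 + 1 + 1 by ring, factorial_succ, h.eq_2, pow_succ]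
  push_cast
  field_simp
  ring

lemma cl2 (j d : ℕ) : F2 j (d + 1) - F2 (j + 1) d = G2 j (d + 1) - G2 j d := by
  simp only [F2, G2, T2, show j + (d + 1) = j + d + 1 by ring, show j + 1 + d = j + d + 1 by ring,
    show j + 1 + (d + 1) = j + d + 1 + 1 by ring, show j + 2 * (d + 1) = j + 2 * d + 1 + 1 by ring,
    show j + 1 + 2 * d = j + 2 * d + 1 by ring, show j + 1 + 2 * (d + 1) = j + 2 * d + 1 + 1 + 1 by ring,
    show 2 * j + (d + 1) = 2 * j + d + 1 by ring, show 2 * (j + 1) + d = 2 * j + d + 1 + 1 by ring,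
    show 2 * (j + 1) + (d + 1) = 2 * j + d + 1 + 1 + 1 by ring, show 3 * (j + 1) = 3 * j + 1 + 1 + 1 by ring,
    show 3 * (j + d + 1 + 1) = 3 * (j + d + 1) + 1 + 1 + 1 by ring, factorial_succ, h.eq_2, pow_succ]
  push_cast
  field_simp
  ring

lemma bd2 (n : ℕ) : F2 n 0 = G2 n 0 := by
  simp only [F2, G2, T2, add_zero, mul_zero, show 2 * (n + 1) = 2 * n + 1 + 1 by ring,
    show 3 * (n + 1) = 3 * n + 1 + 1 + 1 by ring, factorial_succ, h.eq_2, pow_succ]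
  push_cast
  field_simp
  ring

lemma F12 (k : ℕ) : F2 0 k = F1 0 k := by
  simp only [F1, F2, T1, T2, zero_add, mul_zero, factorial_zero, pow_zero]
  push_cast
  field_simp
  ring

lemma aT (k : ℕ) : (15 * k + 4) * ((2 * k).choose k : ℚ) ^ 2 * ((3 * k).choose k : ℚ) = (-27) ^ k * F1 0 k := by
  simp only [F1, T1, zero_add, mul_zero, pow_zero]
  rw [cb, Nat.cast_choose ℚ (show k ≤ 3 * k by omega), show 3 * k - k = 2 * k by omega,
    show (-16 / 27 : ℚ) = 4 * 4 / (-27) by norm_num, div_pow (4 * 4 : ℚ), mul_pow (4 : ℚ) 4]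
  push_cast
  field_simp
  ring

lemma T_eq (n : ℕ) : T (n + 1) = (-27) ^ n * ∑ k ∈ range (n + 1), F1 0 k := by
  rw [T, mul_sum]
  refine sum_congr rfl fun k hk => ?_
  obtain ⟨e, rfl⟩ := Nat.exists_eq_add_of_le (Nat.lt_succ_iff.1 (mem_range.1 hk))
  rw [mul_assoc, mul_assoc, ← mul_assoc (15 * (k : ℚ) + 4), aT, show k + e + 1 - 1 - k = e by omega, pow_add]
  ring

lemma step (n : ℕ) : T (n + 2) = -27 * T (n + 1) + (15 * (n + 1 : ℕ) + 4) *
    ((2 * (n + 1)).choose (n + 1) : ℚ) ^ 2 * ((3 * (n + 1)).choose (n + 1) : ℚ) := by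
  rw [T, T, sum_range_succ, mul_sum]
  congr 1
  · refine sum_congr rfl fun k hk => ?_
    rw [show n + 2 - 1 - k = n + 1 - 1 - k + 1 by have := mem_range.1 hk; omega, pow_succ]
    ring
  · simp

lemma tm1 (j d : ℕ) : (-27 : ℚ) ^ (j + d) * G1 j d = 2 * ((j + d + 1 : ℕ) : ℚ) *
    ((2 * (j + d + 1)).choose (j + d + 1) : ℚ) * ((-1) ^ j * (4 ^ d * h d / d !) *
      ((j + 1 + 2 * d + (2 * j + 1 + d))! / ((j + 1 + 2 * d)! * (2 * j + 1 + d)!)) / 2) := by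
  rw [cb]
  simp only [G1, T1, show j + 1 + d = j + d + 1 by ring, show 2 * (j + 1) + d = 2 * j + 1 + d + 1 by ring,
    show 3 * (j + d + 1) = j + 1 + 2 * d + (2 * j + 1 + d) + 1 by ring, factorial_succ (2 * j + 1 + d),
    factorial_succ (j + 1 + 2 * d + (2 * j + 1 + d)), show (-16 / 27 : ℚ) = 4 * 4 / (-27) by norm_num,
    div_pow, mul_pow (4 : ℚ) 4, pow_succ (-27 : ℚ), pow_succ (-1 : ℚ)]
  push_cast
  field_simp
  ring

lemma one (n : ℕ) : ∃ z : ℤ, T (n + 1) = 2 * ((n + 1 : ℕ) : ℚ) * ((2 * (n + 1)).choose (n + 1) : ℚ) * z := by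
  have hp : (0 : ℚ) < (2 * (n + 1)).choose (n + 1) := by exact_mod_cast Nat.choose_pos (by omega)
  obtain ⟨z, hz⟩ := sum_int (n := n + 1) (f := fun j => (-27 : ℚ) ^ n * G1 j (n + 1 - 1 - j) /
      (2 * ((n + 1 : ℕ) : ℚ) * ((2 * (n + 1)).choose (n + 1) : ℚ))) fun j hj => by
    obtain ⟨d, rfl⟩ := Nat.exists_eq_add_of_le (Nat.lt_succ_iff.1 hj)
    rw [show j + d + 1 - 1 - j = d by omega, tm1, mul_div_cancel_left₀ _ (by positivity)]
    obtain ⟨y, hy⟩ := bin (j + 1 + 2 * d) (2 * j + 1 + d)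
    cases d with
    | succ d =>
      obtain ⟨w, hw⟩ := even_cb d
      exact ⟨(-1) ^ j * w * y, by rw [hw, hy]; push_cast; ring⟩
    | zero =>
      obtain ⟨w, hw⟩ := bin (j + 1) (2 * j + 1 + 1)
      refine ⟨(-1) ^ j * (w - y), ?_⟩
      push_cast
      rw [← hw, ← hy, show j + 1 + (2 * j + 1 + 1) = j + 1 + (2 * j + 1) + 1 by ring,
        factorial_succ (j + 1 + (2 * j + 1)), factorial_succ (2 * j + 1), h.eq_1]
      simp only [mul_zero, add_zero, factorial_zero]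
      push_cast
      field_simp
      ring
  refine ⟨z, ?_⟩
  rw [T_eq, wz cl1 bd1, ← hz, mul_sum, mul_sum]
  refine sum_congr rfl fun j _ => ?_
  field_simp

lemma tm2 (j d : ℕ) : 3 * ((-27 : ℚ) ^ (j + d) * G2 j d) / (2 * ((j + d + 1 : ℕ) : ℚ) *
    (2 * ((j + d + 1 : ℕ) : ℚ) + 1) * ((2 * (j + d + 1)).choose (j + d + 1) : ℚ)) =
    (-9) ^ j * (6 * d + 1) * ((2 * d).choose d : ℚ) * (3 * ((j + d + 1 : ℕ) : ℚ)) *
      ((j + 1 + 2 * d + (2 * j + 1 + d))! / ((j + 1 + 2 * d)! * (2 * j + 1 + d)!)) *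
      ((2 * (2 * j + 1 + d))! / (2 * (j + d + 1) + 1)!) / u3 (j + 1) := by
  have := u3_pos (j + 1)
  rw [cb d, Nat.cast_choose ℚ (by omega), show 2 * (j + d + 1) - (j + d + 1) = j + d + 1 by omega]
  simp only [G2, T2, show j + 1 + d = j + d + 1 by ring, show 2 * (j + 1) + d = 2 * j + 1 + d + 1 by ring,
    show 3 * (j + d + 1) = j + 1 + 2 * d + (2 * j + 1 + d) + 1 by ring, h.eq_2, h_eq (2 * j + 1 + d),
    factorial_succ (j + 1 + 2 * d + (2 * j + 1 + d)), show (-16 / 27 : ℚ) = 4 * 4 / (-27) by norm_num,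
    div_pow, mul_pow (4 : ℚ) 4, pow_succ (-27 : ℚ), factorial_succ (2 * (j + d + 1)), u3_eq (j + 1)]
  rw [show (-27 : ℚ) ^ j = (-9) ^ j * 3 ^ j by rw [← mul_pow]; norm_num]
  push_cast
  field_simp
  ring

lemma main (m : ℕ) : ∃ b : ℤ, 3 * a (m + 1) = b ∧ (3 ∣ b ↔ ¬ IsP (2 * (m + 1) + 1)) := by
  obtain ⟨x, hx⟩ := one m
  obtain ⟨y, hy⟩ := one (m + 1)
  obtain ⟨f, hf⟩ := fc (m + 1)
  have hs := step m
  obtain ⟨z, hz⟩ := sum_int (n := m) (f := fun j => u3 (m + 1) * (3 * ((-27 : ℚ) ^ m *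
      G2 (j + 1) (m + 1 - 1 - (j + 1))) / (2 * ((m + 1 : ℕ) : ℚ) *
      (2 * ((m + 1 : ℕ) : ℚ) + 1) * ((2 * (m + 1)).choose (m + 1) : ℚ))) / 3) fun j hj => by
    obtain ⟨d, rfl⟩ : ∃ d, m = j + 1 + d := ⟨m - j - 1, by omega⟩
    obtain ⟨c, hc⟩ := u3_dvd (j + 1 + 1) d
    obtain ⟨y, hy⟩ := bin (j + 1 + 1 + 2 * d) (2 * (j + 1) + 1 + d)
    obtain ⟨w, hw⟩ := factorial_dvd_factorial
      (show 2 * (j + 1 + d + 1) + 1 ≤ 2 * (2 * (j + 1) + 1 + d) by omega)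
    have := u3_pos (j + 1 + 1)
    rw [show j + 1 + d + 1 - 1 - (j + 1) = d by omega, tm2, hy, hw,
      show u3 (j + 1 + d + 1) = u3 (j + 1 + 1) * c by rw [← hc]; congr 1; ring]
    refine ⟨c * (-9) ^ (j + 1) * (6 * d + 1) * ((2 * d).choose d) * (j + 1 + d + 1) * y * w, ?_⟩
    push_cast
    field_simp
  have e0 := tm2 0 m
  have hCp : (0 : ℚ) < (2 * (m + 1)).choose (m + 1) := by exact_mod_cast Nat.choose_pos (by omega)
  have hC : ((m + 1 + 1 : ℕ) : ℚ) * ((2 * (m + 1 + 1)).choose (m + 1 + 1) : ℚ) =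
      2 * (2 * (m + 1 : ℕ) + 1) * ((2 * (m + 1)).choose (m + 1) : ℚ) := by
    rw [cb, cb, h.eq_2 (m + 1), factorial_succ (m + 1)]
    push_cast
    field_simp
    ring
  have h3 : ((3 * (m + 1)).choose (m + 1) : ℚ) = (2 * (m + 1 : ℕ) + 1) * f := by
    rw [← hf, Nat.cast_choose ℚ (by omega), show 3 * (m + 1) - (m + 1) = 2 * (m + 1) by omega]
    field_simp
  refine fin3 (c := 1) (U := u3 (m + 1)) (x := x) (z := z) (v := (6 * m + 1) * u3 (m + 1))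
    (y := (15 * (m + 1) + 4) * ((2 * (m + 1)).choose (m + 1)) * f - 4 * y)
    (Y := (m + 1) * (2 * m).choose m * f) (by omega) ?_ ?_ (u3_nd _) ?_ ?_ ?_
  · rw [a, hx]; field_simp
  · rw [hy, mul_assoc 2, hC, h3] at hs
    rw [a]
    push_cast at hs ⊢
    field_simp
    linear_combination hs
  · rw [Int.prime_three.dvd_mul, not_or]
    exact ⟨by omega, by exact_mod_cast u3_nd _⟩
  · rw [a, T_eq, ← sum_congr rfl fun k _ => F12 k, wz cl2 bd2, sum_range_succ', ← hz, mul_add, add_div,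
      mul_add, mul_add, add_comm, mul_sum, sum_div, mul_sum, mul_sum, mul_sum]
    congr 1
    · simp only [zero_add, mul_zero] at e0
      rw [← mul_div_assoc, show m + 1 - 1 - 0 = m from rfl, e0]
      push_cast
      rw [← hf, show 1 + 2 * m + (1 + m) = 3 * m + 2 by ring, show 3 * (m + 1) = 3 * m + 2 + 1 by ring,
        show 2 * (1 + m) = 1 + 2 * m + 1 by ring, show 2 * (m + 1) = 1 + 2 * m + 1 by ring, add_comm 1 m,
        factorial_succ (3 * m + 2), factorial_succ (1 + 2 * m + 1), factorial_succ (1 + 2 * m)]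
      simp only [u3]
      push_cast
      field_simp
      ring
    · refine sum_congr rfl fun j _ => ?_
      ring
  · push_cast
    rw [← hf, Nat.cast_choose ℚ (by omega), show 2 * m - m = m by omega, factorial_succ m,
      factorial_succ (2 * (m + 1))]
    push_cast
    field_simp

theorem result (n : ℕ) (hn : 1 ≤ n) :
    ((∀ m : ℕ, 1 ≤ m → 2 * n + 1 ≠ 3 ^ m) → ∃ z : ℤ, a n = z) ∧
    ((∃ m : ℕ, 1 ≤ m ∧ 2 * n + 1 = 3 ^ m) → ∃ z : ℤ, 3 * a n = z ∧ ¬ 3 ∣ z) := by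
  obtain ⟨n, rfl⟩ : ∃ m, n = m + 1 := ⟨n - 1, by omega⟩
  obtain ⟨b, h1, h2⟩ := main n
  refine ⟨fun h => ?_, fun ⟨m, _, hm⟩ => ⟨b, h1, fun h => h2.1 h ⟨m, hm⟩⟩⟩
  obtain ⟨c, rfl⟩ := h2.2 fun ⟨m, hm⟩ => h m (by
    rcases m with _ | m
    · omega
    · omega) hm
  exact ⟨c, by push_cast at h1; linarith⟩

end Pool.Agent.Results.MP_ccf7f2_nt.Int
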